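import Pool.Agent.Helper19_MBX.All

/-!
# MP_8cfbae_mp: the order of the self-energy in small boxes, and of every bound uniform in the volume

For every coupling `alpha > 0` there are `c, C > 0` and `p` such that for all cutoffs `cut ≥ 1` and all
boxes of side `L` with at least one photon mode (`2 π < L cut`)

  `c (L cut)^(-p) cut^(4/3) ≤ E_0 ≤ C (L cut)^p cut^(4/3)`.

So in boxes of the size of the shortest wave length, `2 π < L cut ≤ κ`, the order of `E_0` is exactly
`cut^(4/3)`, with constants depending on `alpha` and `κ` only.  Consequently the exponent of a lower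
bound which is uniform in the volume is at most `4/3`, and the exponent of an upper bound which is
uniform in the volume is at least `4/3`.
-/

namespace Pool.Agent.Results.MP_8cfbae_mp.SmallBoxes

open Pool.Agent.Helper49_Pauli

/-- Two-sided bound for the self-energy in all boxes with at least one photon mode, and the only
possible exponent `4/3` of a bound uniform in the volume. -/
theorem result (alpha : ℝ) (halpha : 0 < alpha) :
    (∃ (c C : ℝ) (p : ℕ), 0 < c ∧ 0 < C ∧ ∀ cut L : ℝ, 1 ≤ cut → 0 < L → 2 * Real.pi < L * cut →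
      ∀ (P : Polarization L) (D : Type) [NormedAddCommGroup D] [InnerProductSpace ℂ D]
        (F : Bosons (Mode cut L) D), F.Cyclic →
        c / (L * cut) ^ p * cut ^ (4 / 3 : ℝ) ≤ selfEnergy alpha F P ∧
        selfEnergy alpha F P ≤ C * (L * cut) ^ p * cut ^ (4 / 3 : ℝ)) ∧
    ∀ gam : ℝ,
      ((∃ c cut₀ : ℝ, 0 < c ∧ ∀ cut L : ℝ, cut₀ ≤ cut → 0 < L → 2 * Real.pi < L * cut →
        ∀ (P : Polarization L) (D : Type) [NormedAddCommGroup D] [InnerProductSpace ℂ D]
          (F : Bosons (Mode cut L) D), F.Cyclic → c * cut ^ gam ≤ selfEnergy alpha F P) →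
        gam ≤ 4 / 3) ∧
      ((∃ C cut₀ : ℝ, 0 < C ∧ ∀ cut L : ℝ, cut₀ ≤ cut → 0 < L → 2 * Real.pi < L * cut →
        ∀ (P : Polarization L) (D : Type) [NormedAddCommGroup D] [InnerProductSpace ℂ D]
          (F : Bosons (Mode cut L) D), F.Cyclic → selfEnergy alpha F P ≤ C * cut ^ gam) →
        4 / 3 ≤ gam) :=
  ⟨Pool.Agent.MBX.H19.fin0 alpha halpha, Pool.Agent.MBX.H19.cor0 alpha halpha⟩

end Pool.Agent.Results.MP_8cfbae_mp.SmallBoxes
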