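import Pool.Agent.Helper49_Pauli.Main
import Pool.Agent.Helper72_FTU.Main
import Pool.Agent.Helper72_FTU.Low

/-!
# MP_8cfbae_mp: the self-energy of a Pauli electron is at most of order `cut^(4/3 + eps)`

For every coupling `alpha > 0` and every `eps > 0` the self-energy satisfies
`E_0 ≤ C(alpha, eps) * cut^(4/3 + eps)` for all cutoffs `cut ≥ 1` and all boxes of side `L ≥ 1`, and
also for all large cutoffs and all boxes of side `L ≥ cut^(-2/3 + eps)`.
Hence for every `gam > 4/3` (in particular for `gam = 3/2`) the lower bound `E_0 ≥ c * cut^gam`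
fails, even if it is only asked for in the limit of large boxes.

Outline.  In scaled units (unit cutoff, `N = cut`) the Hamiltonian is `N/2 D^2 + H_f`.  The trial
state is a coherent state of a straight flux tube of cross section `O(1)`, length `N^(1/3)` and a
strong field `eta^(-4)`, `eta = N^(-delta)`, in Coulomb gauge, with a longitudinal part
`eta^(-5) |x_perp|^2 / 2` which selects one orbital of the lowest Landau level.  For a given
configuration of the photon field the spinor is
`exp(-i Theta) chi(x / l) exp(-|zeta|^2 / 4) (u, f)`, where `u, f` and the rate of the phase `Theta`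
along the tube are polynomials in `eta`, in the transversal variable `zeta`, and in the jets of the
photon field on the axis of the tube; they solve the zero mode equation to an arbitrarily high
order in `eta` (the rate is real because of the conserved current, after a renormalisation).  The
kinetic energy is `O(l^(-2))` plus a high power of `eta`, the field energy is of order `l` up to
powers of `1/eta` (a Bessel inequality along the axis bounds the energy of the phase).  Polynomials
in the field and the phase are realised in an arbitrary representation of the commutation relations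
through Gaussian averages of shift operators.
-/

namespace Pool.Agent.Results.MP_8cfbae_mp.UpperBound

open Pool.Agent.Helper49_Pauli

/-- Upper bound of order `cut^(4/3 + eps)` for the self-energy, uniformly in the box, and failure of
every lower bound of order `cut^gam` with `gam > 4/3`. -/
theorem result (alpha : ℝ) (halpha : 0 < alpha) :
    (∀ eps : ℝ, 0 < eps → ∃ C cut₁ : ℝ, 0 < C ∧ ∀ cut L : ℝ, 1 ≤ cut →
      (1 ≤ L ∨ cut₁ ≤ cut ∧ cut ^ (-(2 / 3) + eps : ℝ) ≤ L) →
      ∀ (P : Polarization L) (D : Type) [NormedAddCommGroup D] [InnerProductSpace ℂ D]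
        (F : Bosons (Mode cut L) D),
        0 ≤ selfEnergy alpha F P ∧ selfEnergy alpha F P ≤ C * cut ^ ((4 / 3 + eps) : ℝ)) ∧
    ∀ gam : ℝ, 4 / 3 < gam →
      ¬ ∃ c : ℝ, 0 < c ∧ ∃ cut₀ : ℝ, ∀ cut : ℝ, cut₀ ≤ cut → ∃ L₀ : ℝ, ∀ L : ℝ, L₀ ≤ L →
        ∀ (P : Polarization L) (D : Type) [NormedAddCommGroup D] [InnerProductSpace ℂ D]
          (F : Bosons (Mode cut L) D), F.Cyclic →
          c * cut ^ gam ≤ selfEnergy alpha F P := by
  refine ⟨fun eps heps => ?_, fun gam hgam => ?_⟩
  · obtain ⟨C, hC, h⟩ := Pool.Agent.FTU.H72.main eps heps alpha halpha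
    obtain ⟨C', cut₁, hC', _, h'⟩ := Pool.Agent.FTU.H72.main2 eps alpha heps halpha
    refine ⟨max C C', cut₁, lt_max_of_lt_left hC, fun cut L hcut hL P D _ _ F => ?_⟩
    have hp : 0 ≤ cut ^ ((4 / 3 + eps) : ℝ) := Real.rpow_nonneg (by linarith) _
    rcases hL with hL | ⟨h1, h2⟩
    · exact ⟨(h cut L hcut hL P D F).1, (h cut L hcut hL P D F).2.trans
        (mul_le_mul_of_nonneg_right (le_max_left _ _) hp)⟩
    · exact ⟨(h' cut L h1 h2 P D F).1, (h' cut L h1 h2 P D F).2.trans
        (mul_le_mul_of_nonneg_right (le_max_right _ _) hp)⟩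
  · have h : (4 : ℝ) / 3 + (gam - 4 / 3) / 2 < gam := by linarith
    exact Pool.Agent.FTU.H72.noLower fockRep pol h
      (Pool.Agent.FTU.H72.main _ (by linarith)) alpha halpha

end Pool.Agent.Results.MP_8cfbae_mp.UpperBound
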